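import Pool.Agent.Helper51.BW.Spec

/-!
# FLX: the flow out of `x` is the energy
-/

set_option autoImplicit false

namespace Pool.Agent.Helper70.BW.FLX

open Pool.Agent.Helper51.BW

theorem main : S_FLX := by
  classical
  intro α U B c x q hc hx hB hxB hqx hqB hh
  set L : α → ℝ := fun z => ∑ z' ∈ U, c z z' * (q z' - q z) with hL
  have h1 : ∑ z ∈ U, L z = 0 := by
    have e : ∑ z ∈ U, L z = - ∑ z ∈ U, L z := by
      conv_lhs => rw [hL, Finset.sum_comm]
      rw [← Finset.sum_neg_distrib]
      refine Finset.sum_congr rfl fun z _ => ?_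
      rw [hL, ← Finset.sum_neg_distrib]
      refine Finset.sum_congr rfl fun z' _ => ?_
      rw [hc z' z]
      ring
    linarith
  have h2 : En U c q = - ∑ z ∈ U, q z * L z := by
    unfold En
    have e : ∑ z ∈ U, ∑ z' ∈ U, c z z' * (q z' - q z) ^ 2 =
        (∑ z ∈ U, ∑ z' ∈ U, c z z' * (q z' - q z) * q z') -
          ∑ z ∈ U, q z * L z := by
      rw [← Finset.sum_sub_distrib]
      refine Finset.sum_congr rfl fun z _ => ?_
      rw [hL, Finset.mul_sum, ← Finset.sum_sub_distrib]
      exact Finset.sum_congr rfl fun z' _ => by ring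
    have e2 : (∑ z ∈ U, ∑ z' ∈ U, c z z' * (q z' - q z) * q z') = - ∑ z ∈ U, q z * L z := by
      rw [Finset.sum_comm, ← Finset.sum_neg_distrib]
      refine Finset.sum_congr rfl fun z _ => ?_
      rw [hL, Finset.mul_sum, ← Finset.sum_neg_distrib]
      refine Finset.sum_congr rfl fun z' _ => ?_
      rw [hc z' z]
      ring
    rw [e, e2]
    ring
  have h3 : ∑ z ∈ U, q z * L z = ∑ z ∈ U, (L z - if z = x then L z else 0) := by
    refine Finset.sum_congr rfl fun z hz => ?_
    by_cases hzx : z = x
    · subst hzx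
      rw [hqx, if_pos rfl]
      ring
    · rw [if_neg hzx]
      by_cases hzB : z ∈ B
      · rw [hqB z hzB]
        ring
      · have := hh z hz hzx hzB
        change L z = 0 at this
        rw [this]
        ring
  rw [h2, h3, Finset.sum_sub_distrib, h1, Finset.sum_ite_eq' U x, if_pos hx, hL]
  simp only [hqx, sub_zero, zero_sub, neg_neg]

end Pool.Agent.Helper70.BW.FLX
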