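import Pool.Agent.Helper51.BW.Spec

/-!
# FUN: the functionals of the second case
-/

set_option autoImplicit false

namespace Pool.Agent.Helper70.BW.FUN

open Pool.Agent.Helper51.BW

variable {d : ℕ}

theorem fn_true (a : Fin d → ℝ) (j : Fin d) : fn a (j, true) = a j := by
  unfold fn ip dir
  rw [Finset.sum_eq_single j]
  · simp
  · intro i _ hi
    simp [Pi.single_apply, hi]
  · simp

theorem fn_false (a : Fin d → ℝ) (j : Fin d) : fn a (j, false) = -a j := by
  unfold fn ip dir
  rw [Finset.sum_eq_single j]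
  · simp
  · intro i _ hi
    simp [Pi.single_apply, hi]
  · simp

theorem fn_abs (a : Fin d → ℝ) (e : D d) : |fn a e| = |a e.1| := by
  obtain ⟨j, b⟩ := e
  cases b
  · rw [fn_false, abs_neg]
  · rw [fn_true]

theorem sum_fn (p : D d → ℝ) (a : Fin d → ℝ) : ∑ e, p e * fn a e = ∑ j, a j * drift p j := by
  rw [Fintype.sum_prod_type]
  refine Finset.sum_congr rfl fun j _ => ?_
  rw [Fintype.sum_bool, fn_true, fn_false]
  unfold drift
  ring

theorem abs_le_one_of (a : Fin d → ℝ) (h : ∑ j, a j ^ 2 = 1) (j : Fin d) : |a j| ≤ 1 := by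
  have : a j ^ 2 ≤ 1 := by
    rw [← h]
    exact Finset.single_le_sum (f := fun j => a j ^ 2) (fun i _ => sq_nonneg (a i))
      (Finset.mem_univ j)
  exact abs_le_one_iff_mul_self_le_one.mpr (by nlinarith)

theorem mean_le (p : D d → ℝ) (hp : ∀ e, 0 < p e) (h1 : ∑ e, p e = 1) (a : Fin d → ℝ)
    (ha : ∀ e, |fn a e| ≤ 1) : |∑ e, p e * fn a e| ≤ 1 := by
  calc |∑ e, p e * fn a e| ≤ ∑ e, |p e * fn a e| := Finset.abs_sum_le_sum_abs _ _
    _ ≤ ∑ e, p e := by
        refine Finset.sum_le_sum fun e _ => ?_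
        rw [abs_mul, abs_of_pos (hp e)]
        have := ha e
        nlinarith [hp e]
    _ = 1 := h1

theorem main : S_FUN := by
  intro d p q n u g gB hp hq hp1 hq1 hu hn hnu hdp hdq hg hgB
  have hfn : ∀ e, |fn n e| ≤ 1 := fun e => by
    rw [fn_abs]
    exact abs_le_one_of n hn _
  have hfu : ∀ e, |fn u e| ≤ 1 := fun e => by
    rw [fn_abs]
    exact abs_le_one_of u hu _
  have hpu : ∑ e, p e * fn u e = g := by
    rw [sum_fn]
    calc ∑ j, u j * drift p j = g * ∑ j, u j ^ 2 := by
          rw [Finset.mul_sum]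
          exact Finset.sum_congr rfl fun j _ => by rw [hdp]; ring
      _ = g := by rw [hu, mul_one]
  have hqu : ∑ e, q e * fn u e = -gB := by
    rw [sum_fn]
    calc ∑ j, u j * drift q j = -gB * ∑ j, u j ^ 2 := by
          rw [Finset.mul_sum]
          exact Finset.sum_congr rfl fun j _ => by rw [hdq]; ring
      _ = -gB := by rw [hu, mul_one]
  have hpn : ∑ e, p e * fn n e = 0 := by
    rw [sum_fn]
    calc ∑ j, n j * drift p j = g * ∑ j, n j * u j := by
          rw [Finset.mul_sum]
          exact Finset.sum_congr rfl fun j _ => by rw [hdp]; ring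
      _ = 0 := by rw [hnu, mul_zero]
  have hqn : ∑ e, q e * fn n e = 0 := by
    rw [sum_fn]
    calc ∑ j, n j * drift q j = -gB * ∑ j, n j * u j := by
          rw [Finset.mul_sum]
          exact Finset.sum_congr rfl fun j _ => by rw [hdq]; ring
      _ = 0 := by rw [hnu, mul_zero]
  have hperp : ∀ i, ∑ j, perp u i j * u j = 0 := by
    intro i
    unfold perp
    calc ∑ j, ((if j = i then 1 else 0) - u i * u j) * u j =
        ∑ j, (if j = i then u j else 0) - u i * ∑ j, u j ^ 2 := by
          rw [Finset.mul_sum, ← Finset.sum_sub_distrib]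
          refine Finset.sum_congr rfl fun j _ => ?_
          split_ifs <;> ring
      _ = 0 := by
          rw [hu, Finset.sum_ite_eq']
          simp
  have hpp : ∀ i, ∑ e, p e * fn (perp u i) e = 0 := by
    intro i
    rw [sum_fn]
    calc ∑ j, perp u i j * drift p j = g * ∑ j, perp u i j * u j := by
          rw [Finset.mul_sum]
          exact Finset.sum_congr rfl fun j _ => by rw [hdp]; ring
      _ = 0 := by rw [hperp, mul_zero]
  have hqp : ∀ i, ∑ e, q e * fn (perp u i) e = 0 := by
    intro i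
    rw [sum_fn]
    calc ∑ j, perp u i j * drift q j = -gB * ∑ j, perp u i j * u j := by
          rw [Finset.mul_sum]
          exact Finset.sum_congr rfl fun j _ => by rw [hdq]; ring
      _ = 0 := by rw [hperp, mul_zero]
  refine ⟨hfn, hfu, ?_, ?_, ?_, ?_, hpn, hqn, hpu, hqu, hpp, hqp⟩
  · intro i e
    rw [fn_abs]
    unfold perp
    have h1 := abs_le_one_of u hu i
    have h2 := abs_le_one_of u hu e.1
    have h3 : |u i * u e.1| ≤ 1 := by
      rw [abs_mul]
      nlinarith [abs_nonneg (u i), abs_nonneg (u e.1)]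
    calc |(if e.1 = i then (1 : ℝ) else 0) - u i * u e.1| ≤
        |(if e.1 = i then (1 : ℝ) else 0)| + |u i * u e.1| := abs_sub _ _
      _ ≤ 1 + 1 := by
          refine add_le_add ?_ h3
          split_ifs <;> simp
      _ = 2 := by norm_num
  · obtain ⟨j, hj⟩ : ∃ j, n j ≠ 0 := by
      by_contra hc
      push Not at hc
      simp [hc] at hn
    rcases lt_or_gt_of_ne hj with h | h
    · exact ⟨(j, false), by rw [fn_false]; linarith⟩
    · exact ⟨(j, true), by rw [fn_true]; exact h⟩
  · have := mean_le p hp hp1 u hfu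
    rw [hpu, abs_of_pos hg] at this
    exact this
  · have := mean_le q hq hq1 u hfu
    rw [hqu, abs_neg, abs_of_pos hgB] at this
    exact this

end Pool.Agent.Helper70.BW.FUN
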