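import Pool.Agent.Helper70.BW.Lib

/-!
# KOL: Kolmogorov's inequality
-/

set_option autoImplicit false

namespace Pool.Agent.Helper70.BW.KOL

open Pool.Agent.Helper51.BW Pool.Agent.Helper70.BW

variable {α : Type} [Fintype α] {p : α → ℝ}

theorem bound (f : α → ℝ) (hp : ∀ e, 0 ≤ p e) (h1 : ∑ e, p e = 1)
    (h0 : ∑ e, p e * f e = 0) (hf : ∀ e, |f e| ≤ 1) (H : ℝ) (hH : 0 < H) : ∀ (T : ℕ) (y : ℝ),
    Pr p T (fun l => ∃ t ≤ T, H ≤ |y + wk f l t|) ≤ (y ^ 2 + T) / H ^ 2 := by
  have hbig : ∀ (T : ℕ) (y : ℝ), H ≤ |y| → (1 : ℝ) ≤ (y ^ 2 + T) / H ^ 2 := by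
    intro T y hy
    rw [one_le_div (by positivity)]
    have : H ^ 2 ≤ |y| ^ 2 := by gcongr
    rw [sq_abs] at this
    have hT : (0 : ℝ) ≤ T := Nat.cast_nonneg T
    linarith
  intro T
  induction T with
  | zero =>
    intro y
    by_cases hy : H ≤ |y|
    · exact (Pr_le_one hp h1 _ _).trans (hbig 0 y hy)
    · rw [Pr_zero]
      have : ¬ (∃ t ≤ 0, H ≤ |y + wk f [] t|) := by
        rintro ⟨t, -, ht⟩
        rw [wk_nil, add_zero] at ht
        exact hy ht
      unfold ind
      rw [if_neg this]
      positivity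
  | succ T ih =>
    intro y
    by_cases hy : H ≤ |y|
    · exact (Pr_le_one hp h1 _ _).trans (hbig (T + 1) y hy)
    · rw [Pr_succ]
      calc ∑ e, p e * Pr p T (fun l => ∃ t ≤ T + 1, H ≤ |y + wk f (e :: l) t|) ≤
          ∑ e, p e * (((y + f e) ^ 2 + T) / H ^ 2) := by
            refine Finset.sum_le_sum fun e _ => mul_le_mul_of_nonneg_left ?_ (hp e)
            refine (Pr_mono hp T _ (fun l => ∃ t ≤ T, H ≤ |(y + f e) + wk f l t|) ?_).trans
              (ih (y + f e))
            rintro l ⟨t, ht, hle⟩
            cases t with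
            | zero =>
              rw [wk_zero, add_zero] at hle
              exact absurd hle hy
            | succ t =>
              refine ⟨t, by omega, ?_⟩
              rw [wk_succ] at hle
              rwa [add_assoc]
        _ = ((y ^ 2 + T) * ∑ e, p e + 2 * y * (∑ e, p e * f e) +
              ∑ e, p e * (f e) ^ 2) / H ^ 2 := by
            rw [Finset.mul_sum, Finset.mul_sum, ← Finset.sum_add_distrib,
              ← Finset.sum_add_distrib, Finset.sum_div]
            exact Finset.sum_congr rfl fun e _ => by ring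
        _ ≤ (y ^ 2 + (T + 1 : ℕ)) / H ^ 2 := by
            rw [h1, h0]
            have h2 : ∑ e, p e * (f e) ^ 2 ≤ ∑ e, p e := by
              refine Finset.sum_le_sum fun e _ => ?_
              have : (f e) ^ 2 ≤ 1 := by
                have := hf e
                rw [← sq_abs]
                exact pow_le_one₀ (abs_nonneg _) this
              nlinarith [hp e]
            rw [h1] at h2
            push_cast
            refine div_le_div_of_nonneg_right ?_ (by positivity)
            linarith

theorem main : S_KOL := by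
  intro α _ p f hp h1 h0 hf T H hH
  have h := bound f hp h1 h0 hf H hH T 0
  simpa using h

end Pool.Agent.Helper70.BW.KOL
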