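import Pool.Agent.Helper70.BW.Lib

/-!
# LIN: exponential bound below a line
-/

set_option autoImplicit false

namespace Pool.Agent.Helper70.BW.LIN

open Pool.Agent.Helper51.BW Pool.Agent.Helper70.BW

variable {α : Type} [Fintype α] {p : α → ℝ}

theorem exists_s (f : α → ℝ) (hp : ∀ e, 0 ≤ p e) (h1 : ∑ e, p e = 1)
    (hm : 0 < ∑ e, p e * f e) : ∃ s > 0, ∑ e, p e * Real.exp (-(s * f e)) ≤ 1 := by
  set μ := ∑ e, p e * f e with hμ
  set q := ∑ e, p e * (f e) ^ 2 with hq
  have hq0 : 0 ≤ q := Finset.sum_nonneg fun e _ => mul_nonneg (hp e) (sq_nonneg _)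
  set b := 1 + ∑ e, |f e| with hb
  have hb0 : 1 ≤ b := by
    have : 0 ≤ ∑ e, |f e| := Finset.sum_nonneg fun e _ => abs_nonneg _
    linarith
  have hfb : ∀ e, |f e| ≤ b := by
    intro e
    have := Finset.single_le_sum (f := fun e => |f e|) (fun e _ => abs_nonneg (f e))
      (Finset.mem_univ e)
    linarith
  refine ⟨min (1 / b) (μ / (q + 1)), lt_min (by positivity) (by positivity), ?_⟩
  set s := min (1 / b) (μ / (q + 1)) with hs
  have hs0 : 0 < s := lt_min (by positivity) (by positivity)
  have hsb : s * b ≤ 1 := by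
    have : s ≤ 1 / b := min_le_left _ _
    rw [le_div_iff₀ (by linarith)] at this
    exact this
  have hsq : s * q ≤ μ := by
    have : s ≤ μ / (q + 1) := min_le_right _ _
    rw [le_div_iff₀ (by linarith)] at this
    nlinarith
  have hbd : ∀ e, Real.exp (-(s * f e)) ≤ 1 - s * f e + s ^ 2 * (f e) ^ 2 := by
    intro e
    have hx : |-(s * f e)| ≤ 1 := by
      rw [abs_neg, abs_mul, abs_of_pos hs0]
      calc s * |f e| ≤ s * b := mul_le_mul_of_nonneg_left (hfb e) hs0.le
        _ ≤ 1 := hsb
    have := (abs_le.mp (Real.abs_exp_sub_one_sub_id_le hx)).2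
    nlinarith
  calc ∑ e, p e * Real.exp (-(s * f e)) ≤
      ∑ e, p e * (1 - s * f e + s ^ 2 * (f e) ^ 2) :=
        Finset.sum_le_sum fun e _ => mul_le_mul_of_nonneg_left (hbd e) (hp e)
    _ = ∑ e, p e - s * μ + s ^ 2 * q := by
        rw [hμ, hq, Finset.mul_sum, Finset.mul_sum, ← Finset.sum_sub_distrib,
          ← Finset.sum_add_distrib]
        exact Finset.sum_congr rfl fun e _ => by ring
    _ ≤ 1 := by
        rw [h1]
        nlinarith

theorem bound (f : α → ℝ) (hp : ∀ e, 0 ≤ p e) (h1 : ∑ e, p e = 1) (s : ℝ) (hs : 0 < s)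
    (hψ : ∑ e, p e * Real.exp (-(s * f e)) ≤ 1) (z : ℝ) : ∀ (T : ℕ) (y : ℝ),
    Pr p T (fun l => ∃ t ≤ T, y + wk f l t ≤ -z) ≤ Real.exp (-(s * (z + y))) := by
  intro T
  induction T with
  | zero =>
    intro y
    by_cases hy : y ≤ -z
    · refine (Pr_le_one hp h1 _ _).trans ?_
      exact Real.one_le_exp (by nlinarith)
    · rw [Pr_zero]
      have : ¬ (∃ t ≤ 0, y + wk f [] t ≤ -z) := by
        rintro ⟨t, -, ht⟩
        rw [wk_nil, add_zero] at ht
        exact hy ht
      unfold ind
      rw [if_neg this]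
      exact (Real.exp_pos _).le
  | succ T ih =>
    intro y
    by_cases hy : y ≤ -z
    · refine (Pr_le_one hp h1 _ _).trans ?_
      exact Real.one_le_exp (by nlinarith)
    · rw [Pr_succ]
      calc ∑ e, p e * Pr p T (fun l => ∃ t ≤ T + 1, y + wk f (e :: l) t ≤ -z) ≤
          ∑ e, p e * (Real.exp (-(s * (z + y))) * Real.exp (-(s * f e))) := by
            refine Finset.sum_le_sum fun e _ => mul_le_mul_of_nonneg_left ?_ (hp e)
            refine (Pr_mono hp T _ (fun l => ∃ t ≤ T, (y + f e) + wk f l t ≤ -z) ?_).trans ?_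
            · rintro l ⟨t, ht, hle⟩
              cases t with
              | zero =>
                rw [wk_zero, add_zero] at hle
                exact absurd hle hy
              | succ t =>
                refine ⟨t, by omega, ?_⟩
                rw [wk_succ] at hle
                linarith
            · refine (ih (y + f e)).trans (le_of_eq ?_)
              rw [← Real.exp_add]
              congr 1
              ring
        _ = Real.exp (-(s * (z + y))) * ∑ e, p e * Real.exp (-(s * f e)) := by
            rw [Finset.mul_sum]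
            exact Finset.sum_congr rfl fun e _ => by ring
        _ ≤ Real.exp (-(s * (z + y))) * 1 :=
            mul_le_mul_of_nonneg_left hψ (Real.exp_pos _).le
        _ = _ := mul_one _

theorem main : S_LIN := by
  intro α _ p f hp h1 hm
  obtain ⟨s, hs, hψ⟩ := exists_s f hp h1 hm
  refine ⟨s, hs, fun T z => ?_⟩
  have h := bound f hp h1 s hs hψ z T 0
  simpa using h

end Pool.Agent.Helper70.BW.LIN
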