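import Pool.Agent.Helper70.BW.Lib

/-!
# POS1: positive drift, positive for ever
-/

set_option autoImplicit false

namespace Pool.Agent.Helper70.BW.POS1

open Pool.Agent.Helper51.BW Pool.Agent.Helper70.BW

variable {α : Type} [Fintype α] {p : α → ℝ}

theorem start (hL : S_LIN) (f : α → ℝ) (hp : ∀ e, 0 ≤ p e) (h1 : ∑ e, p e = 1)
    (hm : 0 < ∑ e, p e * f e) : ∃ Y > 0, ∀ y ≥ Y, ∀ T : ℕ,
    (1 / 2 : ℝ) ≤ Pr p T (fun l => ∀ t ≤ T, 0 < y + wk f l t) := by
  obtain ⟨s, hs, hb⟩ := hL α p f hp h1 hm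
  refine ⟨Real.log 2 / s, by positivity, fun y hy T => ?_⟩
  have h := hb T y
  have h2 : Real.exp (-(s * y)) ≤ 1 / 2 := by
    have : Real.log 2 ≤ s * y := by
      rw [ge_iff_le, div_le_iff₀ hs] at hy
      linarith
    calc Real.exp (-(s * y)) ≤ Real.exp (-Real.log 2) := by
          apply Real.exp_le_exp.mpr
          linarith
      _ = 1 / 2 := by
          rw [Real.exp_neg, Real.exp_log (by norm_num)]
          norm_num
  have h3 := Pr_compl h1 T (fun l => ∃ t ≤ T, wk f l t ≤ -y)
  have h4 : Pr p T (fun l => ¬ ∃ t ≤ T, wk f l t ≤ -y) ≤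
      Pr p T (fun l => ∀ t ≤ T, 0 < y + wk f l t) := by
    refine Pr_mono hp T _ _ fun l hl t ht => ?_
    push Not at hl
    have := hl t ht
    linarith
  linarith

theorem steps (f : α → ℝ) (hp : ∀ e, 0 ≤ p e) (h1 : ∑ e, p e = 1) (e0 : α) (he : 0 < f e0)
    (Y : ℝ) (hY : ∀ y ≥ Y, ∀ T : ℕ,
      (1 / 2 : ℝ) ≤ Pr p T (fun l => ∀ t ≤ T, 0 < y + wk f l t)) :
    ∀ (m : ℕ) (y : ℝ) (T : ℕ), 0 < y → Y ≤ y + m * f e0 →
      (p e0) ^ m / 2 ≤ Pr p T (fun l => ∀ t ≤ T, 0 < y + wk f l t) := by
  have hp1 : p e0 ≤ 1 := by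
    rw [← h1]
    exact Finset.single_le_sum (fun e _ => hp e) (Finset.mem_univ e0)
  intro m
  induction m with
  | zero =>
    intro y T _ hy
    simp only [Nat.cast_zero, zero_mul, add_zero] at hy
    simpa using hY y hy T
  | succ m ih =>
    intro y T hy hYy
    cases T with
    | zero =>
      rw [Pr_zero]
      have : ∀ t ≤ 0, 0 < y + wk f [] t := by
        intro t _
        rw [wk_nil, add_zero]
        exact hy
      unfold ind
      rw [if_pos this]
      have := pow_le_one₀ (n := m + 1) (hp e0) hp1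
      linarith
    | succ T =>
      rw [Pr_succ]
      have h2 := ih (y + f e0) T (by linarith) (by
        push_cast at hYy
        linarith)
      calc (p e0) ^ (m + 1) / 2 = p e0 * ((p e0) ^ m / 2) := by ring
        _ ≤ p e0 * Pr p T (fun l => ∀ t ≤ T + 1, 0 < y + wk f (e0 :: l) t) := by
            refine mul_le_mul_of_nonneg_left (h2.trans ?_) (hp e0)
            refine Pr_mono hp T _ _ fun l hl t ht => ?_
            cases t with
            | zero =>
              rw [wk_zero, add_zero]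
              exact hy
            | succ t =>
              rw [wk_succ]
              have := hl t (by omega)
              linarith
        _ ≤ _ := Finset.single_le_sum
            (f := fun e => p e * Pr p T (fun l => ∀ t ≤ T + 1, 0 < y + wk f (e :: l) t))
            (fun e _ => mul_nonneg (hp e) (Pr_nonneg hp T _)) (Finset.mem_univ e0)

theorem exists_e0 (f : α → ℝ) (hp : ∀ e, 0 ≤ p e) (hm : 0 < ∑ e, p e * f e) :
    ∃ e0, 0 < p e0 ∧ 0 < f e0 := by
  by_contra h
  push Not at h
  have : ∑ e, p e * f e ≤ 0 := by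
    refine Finset.sum_nonpos fun e _ => ?_
    rcases (hp e).lt_or_eq with h0 | h0
    · exact mul_nonpos_of_nonneg_of_nonpos (hp e) (h e h0)
    · rw [← h0, zero_mul]
  linarith

theorem main (hL : S_LIN) : S_POS1 := by
  intro α _ p f hp h1 hm
  obtain ⟨e0, hpe, he⟩ := exists_e0 f hp hm
  obtain ⟨Y, -, hY⟩ := start hL f hp h1 hm
  obtain ⟨m, hmm⟩ := exists_nat_ge (Y / f e0)
  have hp1 : p e0 ≤ 1 := by
    rw [← h1]
    exact Finset.single_le_sum (fun e _ => hp e) (Finset.mem_univ e0)
  have hk : Y ≤ f e0 + m * f e0 := by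
    rw [div_le_iff₀ he] at hmm
    linarith
  refine ⟨p e0 * ((p e0) ^ m / 2), by positivity, fun T => ?_⟩
  cases T with
  | zero =>
    rw [Pr_zero]
    have : ∀ t, 1 ≤ t → t ≤ 0 → 0 < wk f [] t := by
      intro t h1 h2
      omega
    unfold ind
    rw [if_pos this]
    have := pow_le_one₀ (n := m) hpe.le hp1
    nlinarith
  | succ T =>
    rw [Pr_succ]
    have h2 := steps f hp h1 e0 he Y hY m (f e0) T he hk
    calc p e0 * ((p e0) ^ m / 2) ≤
        p e0 * Pr p T (fun l => ∀ t, 1 ≤ t → t ≤ T + 1 → 0 < wk f (e0 :: l) t) := by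
          refine mul_le_mul_of_nonneg_left (h2.trans ?_) (hp e0)
          refine Pr_mono hp T _ _ fun l hl t ht1 ht => ?_
          cases t with
          | zero => omega
          | succ t =>
            rw [wk_succ]
            exact hl t (by omega)
      _ ≤ _ := Finset.single_le_sum
          (f := fun e => p e * Pr p T (fun l => ∀ t, 1 ≤ t → t ≤ T + 1 → 0 < wk f (e :: l) t))
          (fun e _ => mul_nonneg (hp e) (Pr_nonneg hp T _)) (Finset.mem_univ e0)

end Pool.Agent.Helper70.BW.POS1
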