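import Pool.Agent.Helper51.BW.Spec

/-!
# Elementary facts on `Ex` and `Pr`
-/

set_option autoImplicit false

namespace Pool.Agent.Helper70.BW

open Pool.Agent.Helper51.BW

variable {α : Type} [Fintype α] {p : α → ℝ}

theorem Ex_mono (hp : ∀ e, 0 ≤ p e) : ∀ (n : ℕ) (F G : List α → ℝ), (∀ l, F l ≤ G l) →
    Ex p n F ≤ Ex p n G := by
  intro n
  induction n with
  | zero => intro F G h; exact h []
  | succ n ih =>
    intro F G h
    unfold Ex
    exact Finset.sum_le_sum fun e _ => mul_le_mul_of_nonneg_left (ih _ _ fun l => h _) (hp e)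

theorem Ex_const (h1 : ∑ e, p e = 1) (c : ℝ) : ∀ n : ℕ, Ex p n (fun _ => c) = c := by
  intro n
  induction n with
  | zero => rfl
  | succ n ih =>
    unfold Ex
    simp only [ih]
    rw [← Finset.sum_mul, h1, one_mul]

theorem ind_le_one (Q : Prop) : ind Q ≤ 1 := by
  unfold ind
  split_ifs <;> norm_num

theorem ind_nonneg (Q : Prop) : 0 ≤ ind Q := by
  unfold ind
  split_ifs <;> norm_num

theorem ind_mono {Q R : Prop} (h : Q → R) : ind Q ≤ ind R := by
  unfold ind
  by_cases hQ : Q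
  · rw [if_pos hQ, if_pos (h hQ)]
  · rw [if_neg hQ]
    split_ifs <;> norm_num

theorem Pr_le_one (hp : ∀ e, 0 ≤ p e) (h1 : ∑ e, p e = 1) (n : ℕ) (Q : List α → Prop) :
    Pr p n Q ≤ 1 := by
  unfold Pr
  calc _ ≤ Ex p n (fun _ => 1) := Ex_mono hp n _ _ fun l => ind_le_one _
    _ = 1 := Ex_const h1 1 n

theorem Ex_nonneg (hp : ∀ e, 0 ≤ p e) : ∀ (n : ℕ) (F : List α → ℝ), (∀ l, 0 ≤ F l) →
    0 ≤ Ex p n F := by
  intro n
  induction n with
  | zero => intro F h; exact h []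
  | succ n ih =>
    intro F h
    unfold Ex
    exact Finset.sum_nonneg fun e _ => mul_nonneg (hp e) (ih _ fun l => h _)

theorem Pr_nonneg (hp : ∀ e, 0 ≤ p e) (n : ℕ) (Q : List α → Prop) : 0 ≤ Pr p n Q :=
  Ex_nonneg hp n _ fun _ => ind_nonneg _

theorem Pr_mono (hp : ∀ e, 0 ≤ p e) (n : ℕ) (Q R : List α → Prop) (h : ∀ l, Q l → R l) :
    Pr p n Q ≤ Pr p n R :=
  Ex_mono hp n _ _ fun l => ind_mono (h l)

theorem Ex_add : ∀ (n : ℕ) (F G : List α → ℝ), Ex p n (fun l => F l + G l) =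
    Ex p n F + Ex p n G := by
  intro n
  induction n with
  | zero => intro F G; rfl
  | succ n ih =>
    intro F G
    unfold Ex
    simp only [ih, mul_add, Finset.sum_add_distrib]

theorem Pr_succ (n : ℕ) (Q : List α → Prop) :
    Pr p (n + 1) Q = ∑ e, p e * Pr p n (fun l => Q (e :: l)) := rfl

theorem Pr_zero (Q : List α → Prop) : Pr p 0 Q = ind (Q []) := rfl

theorem Pr_compl (h1 : ∑ e, p e = 1) (n : ℕ) (Q : List α → Prop) :
    Pr p n Q + Pr p n (fun l => ¬ Q l) = 1 := by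
  unfold Pr
  rw [← Ex_add]
  have : (fun l => ind (Q l) + ind (¬ Q l)) = fun _ => (1 : ℝ) := by
    funext l
    unfold ind
    by_cases h : Q l <;> simp [h]
  rw [this, Ex_const h1]

theorem wk_zero (f : α → ℝ) (l : List α) : wk f l 0 = 0 := by
  simp [wk]

theorem wk_succ (f : α → ℝ) (e : α) (l : List α) (t : ℕ) :
    wk f (e :: l) (t + 1) = f e + wk f l t := by
  simp [wk]

theorem wk_nil (f : α → ℝ) (t : ℕ) : wk f [] t = 0 := by
  simp [wk]

end Pool.Agent.Helper70.BW
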