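import Pool.Agent.Helper51.BW.Spec

/-!
# TILT
-/

set_option autoImplicit false

namespace Pool.Agent.Helper70.BW.TILT

open Pool.Agent.Helper51.BW

theorem main : S_TILT := by
  intro d p h hp h1 hq hm
  obtain ⟨e0, he0⟩ : ∃ e0, fn h e0 ≠ 0 := by
    by_contra hc
    push Not at hc
    simp [hc] at hm
  have hs : ∑ e, p e * Real.exp (-(fn h e)) * (fn h e + 1) < ∑ e, p e := by
    refine Finset.sum_lt_sum (fun e _ => ?_) ⟨e0, Finset.mem_univ _, ?_⟩
    · have h2 := Real.add_one_le_exp (fn h e)
      calc p e * Real.exp (-(fn h e)) * (fn h e + 1) ≤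
          p e * Real.exp (-(fn h e)) * Real.exp (fn h e) :=
            mul_le_mul_of_nonneg_left h2 (mul_nonneg (hp e).le (Real.exp_pos _).le)
        _ = p e := by
            rw [mul_assoc, ← Real.exp_add, neg_add_cancel, Real.exp_zero, mul_one]
    · have h2 := Real.add_one_lt_exp he0
      calc p e0 * Real.exp (-(fn h e0)) * (fn h e0 + 1) <
          p e0 * Real.exp (-(fn h e0)) * Real.exp (fn h e0) :=
            mul_lt_mul_of_pos_left h2 (mul_pos (hp e0) (Real.exp_pos _))
        _ = p e0 := by
            rw [mul_assoc, ← Real.exp_add, neg_add_cancel, Real.exp_zero, mul_one]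
  simp only [mul_add, mul_one, Finset.sum_add_distrib] at hs
  rw [hq, h1] at hs
  linarith

end Pool.Agent.Helper70.BW.TILT
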